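import Pool.Agent.Run7.h27.EH.Lev
import Pool.Agent.Run7.h794.MK.All

/-!
# The conjecture of Elliott and Halberstam on average over families of residues in intervals of length `N^(1/3) log^C N`

Absolute values over ALL the moduli `q ≤ N / exp (K (log log N) ^ 2)`, weights `τ(q) ^ T`, arbitrary heights inside; the average
is over ANY finite family of integers whose exponential sums are small off few arcs of length `log^D N / H`, where
`H ≥ N^(1/3) log^C N`; such a family may be thin and lie in an interval of length `H`. Starting results of this kind: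
all the integers of an interval of this length (`MP_00e23e_nt.ShortIntervalResidues`, absolute values inside as well), and
thin families spread over an interval of length `N / log^a N` (`ThinFamilies` and its relatives).

The values of the exponential sums of the von Mangoldt function on short arcs (equivalently, in almost all short intervals)
are from project MK (`Run7.h794.MK.law_all`, no hypotheses), the chain from first moments of correlations to levels
of distribution is that of the starting library `TH212.EH`, made independent of the class of families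
(`Run7.h27.EH.Ch`).
-/

set_option autoImplicit false

namespace Pool.Agent.Results.MP_a78e8f_nt.FewNarrowArcs

open Finset Polynomial

/-- `e(x) = exp (2 π i x)` -/
noncomputable def e (x : ℝ) : ℂ := Complex.exp (2 * Real.pi * Complex.I * x)

/-- `ψ(x; q, a) - x / φ(q)`, where `ψ(x; q, a)` is the sum of `Λ(n)` over the `1 ≤ n ≤ x` with `n ≡ a (mod q)`. -/
noncomputable def E (x q : ℕ) (a : ℤ) : ℝ :=
  ∑ n ∈ (Icc 1 x).filter (fun n : ℕ => (n : ℤ) ≡ a [ZMOD q]), ArithmeticFunction.vonMangoldt n -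
    (x : ℝ) / Nat.totient q

/-- `N / exp (K (log log N) ^ 2)` -/
noncomputable def level (K N : ℕ) : ℝ := N / Real.exp (K * Real.log (Real.log N) ^ 2)

/-- `τ(q)`, the number of the divisors of `q` -/
noncomputable def τ (q : ℕ) : ℝ := q.divisors.card

/-- Off at most `log^S N` arcs of the circle, of length `log^D N / H` (on both sides of the points of `Γ`), the exponential
sums of the family are at most `#ι / log^V N`. -/
def Narrow (V S D N H : ℕ) {ι : Type} [Fintype ι] (v : ι → ℤ) : Prop :=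
  ∃ Γ : Finset ℝ, (Γ.card : ℝ) ≤ Real.log N ^ S ∧
    ∀ α : ℝ, (∀ γ ∈ Γ, ∀ m : ℤ, Real.log N ^ D / H < |α - γ - m|) → ‖∑ i, e ((v i : ℝ) * α)‖ ≤ Fintype.card ι / Real.log N ^ V

open Classical in
/-- For all coefficients `|w i| ≤ log ^ T N` of the members of the family and all functions `x(q) ≤ B N`, the sum over ALL
`q ≤ N / exp (K (log log N) ^ 2)` of `τ(q) ^ T` times the ABSOLUTE VALUE of the sum of `w i (ψ(x(q); q, v i) - x(q) / φ(q))` over
the members `v i > 0` coprime to `q` is at most `#ι N / log ^ U N`. -/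
def Averages (K N B T U : ℕ) {ι : Type} [Fintype ι] (v : ι → ℤ) : Prop :=
  ∀ w : ι → ℝ, (∀ i, |w i| ≤ Real.log N ^ T) → ∀ x : ℕ → ℕ, (∀ q, x q ≤ B * N) →
    ∑ q ∈ Icc 1 ⌊level K N⌋₊, τ q ^ T *
      |∑ i ∈ univ.filter (fun i : ι => 0 < v i ∧ Int.gcd (v i) q = 1), w i * E (x q) q (v i)| ≤
        Fintype.card ι * N / Real.log N ^ U

/-- The Fourier coefficients of the residues `y i`, `i ∈ s`, modulo `q` at the nonzero frequencies are at most
`η` times the number of the residues: `|∑ i ∈ s, e(h y_i / q)| ≤ η |s|` for all `h ≠ 0` modulo `q`. -/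
def Flat {ι : Type} (q : ℕ) [NeZero q] (η : ℝ) (s : Finset ι) (y : ι → ZMod q) : Prop :=
  ∀ h : ZMod q, h ≠ 0 → ‖∑ i ∈ s, (ZMod.stdAddChar (h * y i) : ℂ)‖ ≤ η * s.card

theorem gcd_iff (a : ℤ) (ha : 0 < a) (q : ℕ) : Int.gcd a q = 1 ↔ a.toNat.Coprime q := by
  obtain ⟨b, rfl⟩ := Int.eq_ofNat_of_zero_le ha.le
  rw [Int.gcd_natCast_natCast, Int.toNat_natCast, Nat.coprime_iff_gcd_eq_one]

theorem E_eq (x q : ℕ) (a : ℤ) (ha : 0 < a) : E x q a =
    Pool.Agent.W93.LV.Fu (fun n => ArithmeticFunction.vonMangoldt n) x q a.toNat - (x : ℝ) / Nat.totient q := by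
  obtain ⟨b, rfl⟩ := Int.eq_ofNat_of_zero_le ha.le
  unfold E Pool.Agent.W93.LV.Fu
  rw [Int.toNat_natCast]
  congr 1
  apply sum_congr _ (fun _ _ => rfl)
  ext n
  simp only [mem_filter, Int.natCast_modEq_iff]

theorem main (B T U : ℕ) : ∃ V : ℕ, ∀ S D : ℕ, ∃ K C N₀ : ℕ, ∀ N : ℕ, N₀ ≤ N → ∀ H : ℕ,
    (N : ℝ) ^ (1 / 3 : ℝ) * Real.log N ^ C ≤ H → ∀ (ι : Type) [Fintype ι] (v : ι → ℤ), (∀ i, |v i| ≤ B * N) →
    Pool.Agent.Run7.h27.EH.Off V S D N H v → Averages K N B T U v := by
  obtain ⟨V, hV⟩ := Pool.Agent.Run7.h27.EH.arc_dual Pool.Agent.Run7.h794.MK.law_all B T U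
  refine ⟨V, fun S D => ?_⟩
  obtain ⟨K, C, N₀, h⟩ := hV S D
  refine ⟨K, C, N₀, fun N hN H hH ι _ v hv hoff w hw x hx => ?_⟩
  have hlev0 : 0 ≤ level K N := by unfold level; positivity
  have k3 := h N hN ι v hv H hH hoff w hw ⌊level K N⌋₊ (Nat.floor_le hlev0) x hx
  rw [mul_comm (Fintype.card ι : ℝ)]
  refine le_trans (le_of_eq ?_) k3
  apply sum_congr rfl
  intro q _
  unfold τ
  congr 2
  apply sum_congr
  · ext i
    simp only [mem_filter, mem_univ, true_and]
    constructor
    · rintro ⟨h3, h4⟩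
      exact ⟨h3, (gcd_iff _ h3 q).1 h4⟩
    · rintro ⟨h3, h4⟩
      exact ⟨h3, (gcd_iff _ h3 q).2 h4⟩
  · intro i hi
    rw [mem_filter] at hi
    rw [E_eq _ _ _ hi.2.1]

/-- **(1)** Let `B`, `T`, `U` be fixed. There is a number `V` such that for all `S`, `D` there are `K`, `C` with the following
property for all large `N`. Let `H ≥ N^(1/3) log^C N`, and let `v i`, `i ∈ ι`, be ANY finite family of integers of size at
most `B N` such that off at most `log^S N` arcs of length `log^D N / H` on the circle the exponential sums `∑ i, e(α v_i)` are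
at most `#ι / log^V N`. Then for all coefficients `|w i| ≤ log ^ T N` and heights `x(q) ≤ B N` the sum over ALL moduli
`q ≤ N / exp (K (log log N) ^ 2)` of `τ(q) ^ T |∑ i, w i (ψ(x(q); q, v i) - x(q) / φ(q))|`, the inner sum over the members
`v i > 0` coprime to `q`, is at most `#ι N / log ^ U N`.

**(2)** The values `f(m)`, `0 ≤ m < M`, of every integer polynomial of degree `d` whose leading coefficient is at most
`log ^ a N` in absolute value, if `M ^ d ≥ N^(1/3) log^C N` and the values are at most `B N` in absolute value; thus the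
average is over as few as `N ^ (1 / (3 d)) log^C N` residues `c + g(m)`, with an arbitrary large constant `c`.

**(3)** The residues `c + κ y_i`, `|c| ≤ B N`, for every finite family `y i`, `i ∈ s`, of residues modulo `M`,
`N^(1/3) log^C N ≤ M ≤ N`, whose Fourier coefficients at the nonzero frequencies are at most `|s| / log ^ V M` (least residues
`0 ≤ y_i < M` are meant). -/
theorem result :
    (∀ B T U : ℕ, ∃ V : ℕ, ∀ S D : ℕ, ∃ K C N₀ : ℕ, ∀ N : ℕ, N₀ ≤ N → ∀ H : ℕ, (N : ℝ) ^ (1 / 3 : ℝ) * Real.log N ^ C ≤ H →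
      ∀ (ι : Type) [Fintype ι] (v : ι → ℤ), (∀ i, |v i| ≤ B * N) → Narrow V S D N H v → Averages K N B T U v) ∧
    (∀ d a B T U : ℕ, 1 ≤ d → ∃ K C N₀ : ℕ, ∀ N : ℕ, N₀ ≤ N → ∀ f : ℤ[X], f.natDegree = d →
      |(f.leadingCoeff : ℝ)| ≤ Real.log N ^ a → ∀ M : ℕ, (N : ℝ) ^ (1 / 3 : ℝ) * Real.log N ^ C ≤ (M : ℝ) ^ d →
      (∀ m : ℕ, m < M → |f.eval (m : ℤ)| ≤ B * N) → Averages K N B T U (fun m : Fin M => f.eval ((m : ℕ) : ℤ))) ∧
    (∀ κ : ℤ, κ ≠ 0 → ∀ B T U : ℕ, ∃ V K C N₀ : ℕ, ∀ N : ℕ, N₀ ≤ N → ∀ M : ℕ, ∀ [NeZero M],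
      (N : ℝ) ^ (1 / 3 : ℝ) * Real.log N ^ C ≤ M → M ≤ N → ∀ (ι : Type) (s : Finset ι) (y : ι → ZMod M),
      Flat M (1 / Real.log M ^ V) s y → ∀ c : ℤ, |c| ≤ B * N →
      Averages K N (B + κ.natAbs) T U (fun i : s => c + κ * ((y i).val : ℤ))) := by
  refine ⟨fun B T U => main B T U, fun d a B T U hd => ?_, fun κ hκ B T U => ?_⟩
  · obtain ⟨V, hV⟩ := main B T U
    obtain ⟨S, D, N₁, h1⟩ := Pool.Agent.Run7.h27.EH.poly_off d hd a V
    obtain ⟨K, C, N₀, h⟩ := hV (2 * S) D
    refine ⟨K, C, N₀ + N₁ + 3, fun N hN f hfd hlc M hM hval => ?_⟩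
    have hL : 0 < Real.log N := Real.log_pos (by exact_mod_cast (by omega : 1 < N))
    have hN0 : (0 : ℝ) < N := by exact_mod_cast (by omega : 0 < N)
    have hpos : 0 < (N : ℝ) ^ (1 / 3 : ℝ) * Real.log N ^ C := by positivity
    have hM1 : 1 ≤ M := by
      by_contra hcon
      have : M = 0 := by omega
      rw [this, Nat.cast_zero, zero_pow (by omega)] at hM
      linarith
    refine h N (by omega) (M ^ d) (by push_cast; exact hM) (Fin M) _ (fun m => hval m m.2)
      (Pool.Agent.Run7.h27.EH.OffR.off hL.le (h1 N (by omega) f hfd hlc M hM1 (M ^ d) (Nat.one_le_pow _ _ hM1)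
        (by push_cast; exact le_rfl)))
  · obtain ⟨V, hV⟩ := main (B + κ.natAbs) T U
    obtain ⟨N₁, h1⟩ := Pool.Agent.Run7.h27.EH.flat_off κ hκ V
    obtain ⟨K, C, N₀, h⟩ := hV (2 * 1) (V + 2)
    refine ⟨V + 3, K, C, N₀ + N₁ + 3, fun N hN M _ hM1 hM2 ι s y hf c hc => ?_⟩
    have hL3 : 1 ≤ Real.log N := by
      rw [Real.le_log_iff_exp_le (by exact_mod_cast (by omega : 0 < N))]
      have : (3 : ℝ) ≤ N := by exact_mod_cast (by omega : 3 ≤ N)
      linarith [Real.exp_one_lt_d9]
    have hM3 : (N : ℝ) ^ (1 / 3 : ℝ) ≤ M := by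
      refine le_trans ?_ hM1
      exact le_mul_of_one_le_right (by positivity) (one_le_pow₀ hL3)
    refine h N (by omega) M hM1 s _ (fun i => ?_)
      (Pool.Agent.Run7.h27.EH.OffR.off (by linarith) (h1 N (by omega) M hM3 hM2 ι s y hf c))
    refine (abs_add_le _ _).trans ?_
    have h3 : (((y i).val : ℕ) : ℤ) ≤ N := by
      have := ZMod.val_lt (y i)
      exact_mod_cast (by omega : (y i).val ≤ N)
    have h4 : |κ * ((y i).val : ℤ)| ≤ κ.natAbs * N := by
      rw [abs_mul, Int.abs_eq_natAbs κ, abs_of_nonneg (by positivity)]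
      exact mul_le_mul_of_nonneg_left h3 (by positivity)
    push_cast at h4 ⊢
    linarith

end Pool.Agent.Results.MP_a78e8f_nt.FewNarrowArcs
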