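import Pool.Agent.Run7.h536.PW5
import Pool.Agent.Results.MP_a78e8f_nt.ThinFamilies

/-!
# Level of distribution `N / exp (K (log log N) ^ 2)` along the values of polynomials at integers with restricted digits,
and along bilinear combinations, with arbitrary perturbations, of two thin families

The new ingredients (`Pool.Agent.Run7.h536`): a Weyl inequality and a bound for the additive energy of the values of
every integer polynomial of degree `d` at integers with restricted digits (`PW1` to `PW3`); the class of the families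
of nearly minimal additive energy is closed under `(v, v') ↦ κ v v' + F + G` with arbitrary functions `F`, `G`
(`TB1` to `TB3`). The theorem on thin families is from the starting file `MP_a78e8f_nt.ThinFamilies`.

Definitions used:
* in `Pool.Agent.Results.MP_a78e8f_nt.ThinFamilies`: `E x q a`: `ψ(x; q, a) - x / φ(q)`; `level K N`:
  `N / exp (K (log log N) ^ 2)`; `τ q`: the number of divisors of `q`; `energy h v`: the number of solutions of
  `v (i 1) + ⋯ + v (i h) = v (j 1) + ⋯ + v (j h)`; `Level K N B T U v`: the level of distribution along the family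
  `v` (see there): for `|λ(q)| ≤ (τ(q) log N) ^ T`, for all but `#ι / log ^ U N` members `a > 0` of the family, the
  sums of `λ(q) E(x; q, a)` over the `q ≤ Q` coprime to `a` are `≤ N / log ^ U N` for all `Q ≤ level K N` and
  `x ≤ B N`, and the sum over the `q ≤ level K N` of the absolute values of the averages over the family is small;
* in `Pool.Agent.TH872.GQ`: `S b D k`: the integers below `b ^ k` whose `i`-th digit in base `b` lies in `D i`, for all
  `i < k`;
* in Mathlib: `ℤ[X]`: the polynomials with integer coefficients; `f.natDegree`: the degree; `f.eval x`: the value.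
-/

set_option autoImplicit false

namespace Pool.Agent.Results.MP_a78e8f_nt.PolynomialBilinearFamilies

open Finset Polynomial
open Pool.Agent.Results.MP_a78e8f_nt.ThinFamilies (energy Level level_of)
open Pool.Agent.TH872.GQ (S)

theorem poly (b d B T U : ℕ) (hb : 2 ≤ b) (hd : 2 ≤ d) : ∃ K k₀ : ℕ, ∀ k : ℕ, k₀ ≤ k →
    ∀ D : ℕ → Finset ℕ, (∀ i < k, D i ⊆ range b ∧ 2 ≤ (D i).card) → ∀ f : ℤ[X], f.natDegree = d →
      (∀ n ∈ S b D k, |f.eval (n : ℤ)| ≤ B * (b : ℤ) ^ (d * k)) →
      Level K (b ^ (d * k)) B T U (fun i : {n // n ∈ S b D k} => f.eval ((i.1 : ℕ) : ℤ)) := by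
  obtain ⟨p, C, k₀, hp, h⟩ := Pool.Agent.Run7.h536.poly_thin b hb d hd 0
  obtain ⟨K, N₀, hN⟩ := level_of p B B C T U le_rfl
  refine ⟨K, k₀ + N₀, fun k hk D hD f hf hr => ?_⟩
  obtain ⟨h1, _, _, h4⟩ := h k (by omega)
  simp only [pow_zero, one_mul] at h1 h4
  refine hN (b ^ (d * k)) (by omega) {n // n ∈ S b D k} (fun i => f.eval ((i.1 : ℕ) : ℤ)) (fun i => ?_) (h1 D hD f hf)
  have h5 := hr i.1 i.2
  push_cast
  exact h5

theorem bilin (h h' r B C T U : ℕ) (hh : 1 ≤ h) (hh' : 1 ≤ h') (hr : 1 ≤ r) : ∃ K N₀ : ℕ, ∀ X Y : ℕ, N₀ ≤ X * Y →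
    X ≤ Y ^ r → Y ≤ X ^ r → ∀ (ι ι' : Type) [Fintype ι] [Fintype ι'] (v : ι → ℤ) (v' : ι' → ℤ),
    (∀ i, |v i| ≤ B * X) → (∀ j, |v' j| ≤ B * Y) →
    (energy h v : ℝ) * X ≤ Real.log (X * Y) ^ C * (Fintype.card ι : ℝ) ^ (2 * h) →
    (energy h' v' : ℝ) * Y ≤ Real.log (X * Y) ^ C * (Fintype.card ι' : ℝ) ^ (2 * h') →
    ∀ (F : ι → ℤ) (G : ι' → ℤ) (κ : ℤ), κ ≠ 0 → (∀ i j, |κ * v i * v' j + F i + G j| ≤ B * (X * Y)) →
      Level K (X * Y) B T U (fun q : ι × ι' => κ * v q.1 * v' q.2 + F q.1 + G q.2) := by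
  obtain ⟨p, C', N1, hp, h1⟩ := Pool.Agent.Run7.h536.TB.closure h h' (r + 1) B C hh hh' (by omega)
  obtain ⟨K, N₀, hN⟩ := level_of p B B C' T U le_rfl
  refine ⟨K, N1 + N₀, fun X Y hXY hX hY ι ι' _ _ v v' hv hv' hE hE' F G κ hκ hr => ?_⟩
  refine hN (X * Y) (by omega) (ι × ι') (fun q => κ * v q.1 * v' q.2 + F q.1 + G q.2) (fun q => ?_) ?_
  · have := hr q.1 q.2
    push_cast
    exact this
  · refine h1 X Y (by omega) hX hY ι ι' v v' hv hv' ?_ ?_ F G κ hκ
    · push_cast
      exact hE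
    · push_cast
      exact hE'

/-- **Level of distribution `N / exp (K (log log N) ^ 2)`**

(1) along the values of polynomials at integers with restricted digits: for all `b ≥ 2`, `d ≥ 2`, `B`, `T`, `U` there is
a `K` such that for every large `k`, all sets `D 0, …, D (k - 1)` of at least two digits in base `b` and EVERY integer
polynomial `f` of degree `d` with `|f(n)| ≤ B N`, `N = b ^ (d k)`, for the `n ∈ S` (the coefficients of `f` are
arbitrary), where `S` is the set of the integers below `b ^ k` whose `i`-th digit lies in `D i`, the primes up to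
`B N` have the level of distribution `N / exp (K (log log N) ^ 2)` along the family of the residues `f(n)`, `n ∈ S`;

(2) along bilinear combinations with arbitrary perturbations: let `h, h', r ≥ 1`, `B`, `C`, `T`, `U` be given. There is
a `K` such that for all `X`, `Y` with `X ≤ Y ^ r`, `Y ≤ X ^ r` and `N = X Y` large the following holds. Let `v i`,
`i ∈ ι`, and `v' j`, `j ∈ ι'`, be arbitrary finite families of integers of size at most `B X` and at most `B Y`, with
additive energies of orders `h`, `h'` at most `log ^ C N` times the minimal sizes `#ι ^ (2 h) / X`,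
`#ι' ^ (2 h') / Y`. Let `F : ι → ℤ` and `G : ι' → ℤ` be ARBITRARY functions and `κ ≠ 0` an integer, such that
`|κ v i v' j + F i + G j| ≤ B N`. Then the primes up to `B N` have the level of distribution
`N / exp (K (log log N) ^ 2)` along the family of the residues `κ v i v' j + F i + G j`, `(i, j) ∈ ι × ι'`. -/
theorem result :
    (∀ b d B T U : ℕ, 2 ≤ b → 2 ≤ d → ∃ K k₀ : ℕ, ∀ k : ℕ, k₀ ≤ k →
      ∀ D : ℕ → Finset ℕ, (∀ i < k, D i ⊆ range b ∧ 2 ≤ (D i).card) → ∀ f : ℤ[X], f.natDegree = d →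
        (∀ n ∈ S b D k, |f.eval (n : ℤ)| ≤ B * (b : ℤ) ^ (d * k)) →
        Level K (b ^ (d * k)) B T U (fun i : {n // n ∈ S b D k} => f.eval ((i.1 : ℕ) : ℤ))) ∧
    (∀ h h' r B C T U : ℕ, 1 ≤ h → 1 ≤ h' → 1 ≤ r → ∃ K N₀ : ℕ, ∀ X Y : ℕ, N₀ ≤ X * Y →
      X ≤ Y ^ r → Y ≤ X ^ r → ∀ (ι ι' : Type) [Fintype ι] [Fintype ι'] (v : ι → ℤ) (v' : ι' → ℤ),
      (∀ i, |v i| ≤ B * X) → (∀ j, |v' j| ≤ B * Y) →
      (energy h v : ℝ) * X ≤ Real.log (X * Y) ^ C * (Fintype.card ι : ℝ) ^ (2 * h) →
      (energy h' v' : ℝ) * Y ≤ Real.log (X * Y) ^ C * (Fintype.card ι' : ℝ) ^ (2 * h') →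
      ∀ (F : ι → ℤ) (G : ι' → ℤ) (κ : ℤ), κ ≠ 0 → (∀ i j, |κ * v i * v' j + F i + G j| ≤ B * (X * Y)) →
        Level K (X * Y) B T U (fun q : ι × ι' => κ * v q.1 * v' q.2 + F q.1 + G q.2)) :=
  ⟨fun b d B T U hb hd => poly b d B T U hb hd, fun h h' r B C T U hh hh' hr => bilin h h' r B C T U hh hh' hr⟩

end Pool.Agent.Results.MP_a78e8f_nt.PolynomialBilinearFamilies
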