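import Pool.Agent.Run7.h905.SM.Fin2

/-!
# Averages of the error terms over short intervals of moduli, at every level below one

`E x m a` is the error term `π(x; m, a) - π(x) / φ(m)`.  The moduli are the products `d * q` with
`d ≤ D` and `q` in one of the blocks `(j H, (j + 1) H]`, `1 ≤ j < J`.  The length `H` of the blocks is
at least `x ^ (1 / 2 + ε)`, and `D * J ^ 2 * H ≤ x ^ (1 - ε)`.  For `D = 1` and `θ < 1` one may take
`H = x ^ max (1 / 2 + ε) (2 * θ - 1 + ε)` and reach all moduli up to `x ^ θ`, up to a change of `ε`.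

For each pair `(d, j)` the signed error terms are added over the moduli of the block, with an integer
`a d j` which may depend on the pair (so the maximum over the integers `a` with `0 < |a| ≤ j H` is
inside of the sum over `d` and `j`); the absolute values of these sums are then added over all the
pairs, with the saving of an arbitrary power of the logarithm.
-/

set_option autoImplicit false

open Finset

namespace Pool.Agent.Results.MP_a78e8f_nt.ShortIntervalsOfModuli

/-- the number of primes `p ≤ x` with `p ≡ a` modulo `m` -/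
def primeCount (x m : ℕ) (a : ℤ) : ℕ :=
  ((Icc 1 x).filter fun p : ℕ => p.Prime ∧ (p : ℤ) ≡ a [ZMOD (m : ℤ)]).card

/-- the number of primes up to `x` -/
def primePi (x : ℕ) : ℕ := ((Icc 1 x).filter fun p : ℕ => p.Prime).card

/-- the error term in the prime number theorem for the progression `a` modulo `m` -/
noncomputable def E (x m : ℕ) (a : ℤ) : ℝ :=
  (primeCount x m a : ℝ) - (primePi x : ℝ) / (Nat.totient m : ℝ)

/-- the signed sum of the error terms over the moduli `d * q` coprime to `a`, with `q` in the block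
`(j H, (j + 1) H]` -/
noncomputable def blockSum (x H d j : ℕ) (a : ℤ) : ℝ :=
  ∑ q ∈ (Ioc (j * H) ((j + 1) * H)).filter (fun q : ℕ => Int.gcd a ((d * q : ℕ) : ℤ) = 1),
    E x (d * q) a

open Run7.h905.SM in
lemma blockSum_eq (x H d j : ℕ) (a : ℤ) : blockSum x H d j a = EE x H d j a := by
  unfold blockSum EE
  have h1 : (Ioc (j * H) ((j + 1) * H)).filter (fun q : ℕ => Int.gcd a ((d * q : ℕ) : ℤ) = 1) =
      (Ioc (j * H) ((j + 1) * H)).filter (fun q => q.Coprime a.natAbs ∧ d.Coprime a.natAbs) := by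
    apply filter_congr
    intro q _
    rw [Int.gcd, Int.natAbs_natCast, Nat.gcd_comm, ← Nat.coprime_iff_gcd_eq_one,
      Nat.coprime_mul_iff_left]
    tauto
  rw [h1]
  apply sum_congr rfl
  intro q _
  have h2 : pc (d * q) a (Icc 1 x) = (primeCount x (d * q) a : ℝ) := by
    unfold pc primeCount pr
    rw [← sum_boole]
    apply sum_congr rfl
    intro p _
    by_cases h3 : p.Prime <;> by_cases h4 : (p : ℤ) ≡ a [ZMOD ((d * q : ℕ) : ℤ)] <;> simp [h3]
  have h3 : piN x = (primePi x : ℝ) := by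
    unfold piN primePi pr
    rw [← sum_boole]
  unfold E
  rw [h2, h3]

theorem result (ε : ℝ) (hε : 0 < ε) (A : ℕ) : ∃ x₀ : ℕ, ∀ x : ℕ, x₀ ≤ x → ∀ D H J : ℕ,
    (x : ℝ) ^ (1 / 2 + ε) ≤ H → (D : ℝ) * (J : ℝ) ^ 2 * H * (x : ℝ) ^ ε ≤ x →
    ∀ a : ℕ → ℕ → ℤ, (∀ d ∈ Icc 1 D, ∀ j ∈ Ico 1 J, a d j ≠ 0 ∧ |a d j| ≤ (j : ℤ) * H) →
    ∑ d ∈ Icc 1 D, ∑ j ∈ Ico 1 J, |blockSum x H d j (a d j)| ≤ x / Real.log x ^ A := by
  obtain ⟨x₀, h⟩ := Run7.h905.SM.all_large ε hε A
  refine ⟨x₀, fun x hx D H J hH hD a ha => ?_⟩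
  have h1 := h x hx D H J hH hD a (by
    intro d hd j hj
    refine ⟨(ha d hd j hj).1, ?_⟩
    have h2 := (ha d hd j hj).2
    have h3 : ((a d j).natAbs : ℤ) ≤ ((j * H : ℕ) : ℤ) := by
      rw [Int.natCast_natAbs]
      push_cast
      exact h2
    exact_mod_cast h3)
  refine le_trans (le_of_eq ?_) h1
  apply sum_congr rfl
  intro d _
  apply sum_congr rfl
  intro j _
  rw [blockSum_eq]

end Pool.Agent.Results.MP_a78e8f_nt.ShortIntervalsOfModuli
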