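import Pool.Agent.Run7.h52.M5

/-!
# MP_a78e8f_nt: every modulus `q ≤ X / (log X) ^ A`, `A > 2`, and square weights of residues

The Elliott-Halberstam conjecture fails for moduli `q` close to `x / (log x) ^ A` (Friedlander and Granville), by the
method of Maier: residues `a` which lie in a suitable class modulo the product of the small primes.  Such classes,
the weights of Selberg, of Goldston, Pintz and Yildirim and of Maynard and Tao are square weights of residues: finite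
sums of squares `V ^ 2` of functions of level `R`, each restricted to a residue class modulo `d`, with `d R ^ 2 ≤ N ^ θ`.
Let `r(a)` be the number of `h ≤ Y` for which `a + q h` has no prime factor `p ≤ z` with `p ∤ q`, and `W` the
product of `1 - 1 / p` over the primes `p ≤ z`, `p ∤ q`; `z ≤ N ^ c`.  We determine the size of the irregularities
which square weights of residues of level `N ^ θ`, `θ < 1`, can see at the exponent `A > 2`:

* for every modulus `q` and `Y ≥ (log N) ^ A`, up to a share `ε` of its mass every square weight lives on residues with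
  `|r(a) - W Y| ≤ (2 e ^ γ / Γ(A + 1) + ε) W Y` (and with the bounds of the linear sieve for `A ≤ 4`), and
  on residues for which the number of primes is at most a constant times its expected value;
* for every modulus `q` without a prime factor `≤ log N` and `(log N) ^ A ≤ Y ≤ (log N) ^ (A + κ)` there are residue
  classes modulo some `d ≤ N ^ θ` which up to a share `ε` consist of `a` with `r(a) ≥ (1 + δ_A) W Y`, and
  classes which consist of `a` with `r(a) ≤ (1 - δ_A) W Y`, `δ_A = 1 / (4 (32 m) ^ m m!)`, `m = ⌊A⌋ + 3`.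

So the largest relative deviation is `exp (- C(A) A log A)` with `C(A)` between `1 + o(1)` and `2 + o(1)`.
-/

set_option autoImplicit false

namespace Pool.Agent.Results.MP_a78e8f_nt.SquareWeightsNearLevelOne

/-- `V` is a sum of functions of `n mod m`, `m ≤ R` -/
def HasLevel (R : ℕ) (V : ℤ → ℝ) : Prop :=
  ∃ c : ℕ → ℤ → ℝ, ∀ n : ℤ, V n = ∑ m ∈ Finset.Icc 1 R, c m (n % (m : ℤ))

/-- a finite sum of squares `V ^ 2` restricted to arithmetic progressions of modulus `d`, with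
`V` of level `R` and `d * R ^ 2 ≤ X` -/
def SquareWeight (X : ℝ) (w : ℤ → ℝ) : Prop :=
  ∃ (J : ℕ) (d R : Fin J → ℕ) (a : Fin J → ℤ) (V : Fin J → ℤ → ℝ),
    (∀ j, 1 ≤ d j ∧ 1 ≤ R j ∧ (d j : ℝ) * (R j : ℝ) ^ 2 ≤ X ∧ HasLevel (R j) (V j)) ∧
    ∀ n : ℤ, w n = ∑ j, if (d j : ℤ) ∣ n - a j then (V j n) ^ 2 else 0

/-- the residue class of `b` modulo `d`, as a weight -/
def classWeight (d : ℕ) (b : ℤ) (a : ℤ) : ℝ := if (d : ℤ) ∣ a - b then 1 else 0

/-- the primes `p ≤ z` which do not divide `q` -/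
def smallPrimes (q z : ℕ) : Finset ℕ := ((Finset.Icc 1 z).filter Nat.Prime).filter fun p => ¬ p ∣ q

open Classical in
/-- the number of the `h`, `1 ≤ h ≤ Y`, for which `a + q h` has no prime factor `p ≤ z` with `p ∤ q` -/
noncomputable def roughCount (q z Y : ℕ) (a : ℤ) : ℕ :=
  ((Finset.Ioc (0 : ℤ) (0 + (Y : ℤ))).filter fun h => ∀ p ∈ smallPrimes q z, ¬ (p : ℤ) ∣ a + q * h).card

/-- the product of `1 - 1/p` over the primes `p ≤ z` which do not divide `q` -/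
noncomputable def W (q z : ℕ) : ℝ := ∏ p ∈ smallPrimes q z, (1 - 1 / (p : ℝ))

open Classical in
/-- the number of the `h`, `1 ≤ h ≤ Y`, for which `|a + q h|` is a prime larger than `y` -/
noncomputable def primeCount (q Y : ℕ) (y : ℝ) (a : ℤ) : ℕ :=
  ((Finset.Ioc (0 : ℤ) (0 + (Y : ℤ))).filter fun h =>
    (a + q * h).natAbs.Prime ∧ y < ((a + q * h).natAbs : ℝ)).card

open Classical in
/-- at most the share `ε` of the mass of `w` on `(x, x + N]` lies on the `a` with `P a` -/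
def SmallShare (ε : ℝ) (w : ℤ → ℝ) (x : ℤ) (N : ℕ) (P : ℤ → Prop) : Prop :=
  ∑ a ∈ (Finset.Ioc x (x + N)).filter P, w a ≤ ε * ∑ a ∈ Finset.Ioc x (x + N), w a

/-- `1 / (4 (32 m) ^ m m!)`, `m = ⌊A⌋ + 3` -/
noncomputable def dev (A : ℝ) : ℝ :=
  1 / (4 * (32 * ((⌊A⌋₊ : ℝ) + 3)) ^ (⌊A⌋₊ + 3) * (Nat.factorial (⌊A⌋₊ + 3) : ℕ))

theorem result (A B : ℝ) (hA : 2 < A) (hB : 0 ≤ B) :
    ∃ κ : ℝ, 0 < κ ∧ ∀ θ ε : ℝ, 0 < θ → θ < 1 → 0 < ε →
    ∃ c : ℝ, 0 < c ∧ ∃ C T : ℝ, 0 < C ∧ ∀ N : ℕ, T ≤ N → ∀ Y : ℕ, (Real.log N) ^ A ≤ Y →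
    (∀ q : ℕ, 1 ≤ q → (q : ℝ) ≤ (N : ℝ) ^ B →
      ∀ w : ℤ → ℝ, SquareWeight ((N : ℝ) ^ θ) w → ∀ x : ℤ,
      (∀ z : ℕ, (z : ℝ) ≤ (N : ℝ) ^ c →
        SmallShare ε w x N (fun a => (2 * Real.exp Real.eulerMascheroniConstant / Real.Gamma (A + 1) + ε) *
          (W q z * Y) < |(roughCount q z Y a : ℝ) - W q z * Y|) ∧
        (A ≤ 4 → SmallShare ε w x N (fun a => (roughCount q z Y a : ℝ) <
          (2 * Real.exp Real.eulerMascheroniConstant * Real.log (A - 1) / A - ε) * (W q z * Y))) ∧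
        (A ≤ 3 → SmallShare ε w x N (fun a => (2 * Real.exp Real.eulerMascheroniConstant / A + ε) * (W q z * Y) <
          (roughCount q z Y a : ℝ)))) ∧
      SmallShare ε w x N (fun a => C * (((q : ℝ) / (Nat.totient q : ℕ)) * (Y / Real.log N)) <
        (primeCount q Y ((N : ℝ) ^ c) a : ℝ))) ∧
    ((Y : ℝ) ≤ (Real.log N) ^ (A + κ) → ∀ z : ℕ, Real.log N ≤ z → (z : ℝ) ≤ (N : ℝ) ^ c →
      ∃ d : ℕ, 1 ≤ d ∧ (d : ℝ) ≤ (N : ℝ) ^ θ ∧ ∀ q : ℕ, 1 ≤ q → (q : ℝ) ≤ (N : ℝ) ^ B →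
      (∀ p : ℕ, p.Prime → (p : ℝ) ≤ Real.log N → ¬ p ∣ q) →
      (∃ b : ℤ, ∀ x : ℤ, SmallShare ε (classWeight d b) x N (fun a =>
        (roughCount q z Y a : ℝ) < (1 + dev A) * (W q z * Y))) ∧
      (∃ b : ℤ, ∀ x : ℤ, SmallShare ε (classWeight d b) x N (fun a =>
        (1 - dev A) * (W q z * Y) < (roughCount q z Y a : ℝ)))) := by
  have e : roughCount = Run7.h52.E4.Rg := by
    funext q z Y a
    unfold roughCount Run7.h52.E4.Rg
    congr 1
  have eW : W = Run7.h52.E4.Wg := rfl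
  have ed : dev A = Run7.h52.M1.dl A := rfl
  have eP : primeCount = Run7.h52.E7.Pg := by
    funext q Y y a
    unfold primeCount Run7.h52.E7.Pg
    congr 1
  have key : ∀ (w : ℤ → ℝ) (ε : ℝ) (x : ℤ) (N : ℕ) (P : ℤ → Prop) (_ : DecidablePred P),
      ∑ a ∈ (Finset.Ioc x (x + N)).filter P, w a ≤ ε * ∑ a ∈ Finset.Ioc x (x + N), w a → SmallShare ε w x N P := by
    intro w ε x N P _ h
    unfold SmallShare
    convert h
  rw [e, eW, eP, ed]
  obtain ⟨κ, hκ, HM⟩ := Run7.h52.M2.twoGE hA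
  refine ⟨κ, hκ, fun θ ε hθ0 hθ1 hε => ?_⟩
  have conv : ∀ (d : ℕ) (b x : ℤ) (N : ℕ) (P : ℤ → Prop) (_ : DecidablePred P),
      ∑ n ∈ Finset.Ioc x (x + N), (if P n then (if (d : ℤ) ∣ n - b then (1 : ℝ) else 0) else 0)
        ≤ ε * ∑ n ∈ Finset.Ioc x (x + N), (if (d : ℤ) ∣ n - b then (1 : ℝ) else 0) →
      SmallShare ε (classWeight d b) x N P := by
    intro d b x N P _ h
    refine key _ ε x N P inferInstance ?_
    rw [Finset.sum_filter]
    exact h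
  obtain ⟨c₂, hc₂, T₂, H₂⟩ := Run7.h52.M4.explM hB hθ0 hθ1 hA hε
  obtain ⟨c₃, hc₃, T₃, hT₃, H₃⟩ := HM hθ0 hθ1 hB hε
  obtain ⟨c, hcd⟩ : ∃ c : ℝ, c = min c₂ c₃ := ⟨_, rfl⟩
  have hc : 0 < c := by rw [hcd]; exact lt_min hc₂ hc₃
  have hcc₂ : c ≤ c₂ := by rw [hcd]; exact min_le_left _ _
  have hcc₃ : c ≤ c₃ := by rw [hcd]; exact min_le_right _ _
  have hz₂ : ∀ N : ℕ, (1 : ℝ) ≤ N → ∀ z : ℕ, (z : ℝ) ≤ (N : ℝ) ^ c → (z : ℝ) ≤ (N : ℝ) ^ c₂ := fun N hN z hz =>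
    hz.trans (Real.rpow_le_rpow_of_exponent_le hN hcc₂)
  have hz₃ : ∀ N : ℕ, (1 : ℝ) ≤ N → ∀ z : ℕ, (z : ℝ) ≤ (N : ℝ) ^ c → (z : ℝ) ≤ (N : ℝ) ^ c₃ := fun N hN z hz =>
    hz.trans (Real.rpow_le_rpow_of_exponent_le hN hcc₃)
  obtain ⟨C, T₁, hC, H₁⟩ := Run7.h52.M5.primesM (T := max T₂ 1) hA hε hc
    (fun N hN Y z hY hz q hq hqN w hw x => (H₂ N ((le_max_left _ _).trans hN) Y z hY
      (hz₂ N ((le_max_right _ _).trans hN) z hz) q hq hqN w hw x).1)
  refine ⟨c, hc, C, max T₁ (max T₂ T₃), hC, fun N hN Y hY => ?_⟩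
  have hN1 : T₁ ≤ N := (le_max_left _ _).trans hN
  have hN2 : T₂ ≤ N := ((le_max_left _ _).trans (le_max_right _ _)).trans hN
  have hN3 : T₃ ≤ N := ((le_max_right _ _).trans (le_max_right _ _)).trans hN
  have hN4 : (1 : ℝ) ≤ N := by linarith
  constructor
  · intro q hq hqN w hw x
    refine ⟨fun z hz => ?_, key w ε x N _ _ (H₁ N hN1 Y hY q hq hqN w hw x)⟩
    obtain ⟨g1, g2, g3⟩ := H₂ N hN2 Y z hY (hz₂ N hN4 z hz) q hq hqN w hw x
    exact ⟨key w ε x N _ _ g1, fun hA4 => key w ε x N _ _ (g2 hA4), fun hA3 => key w ε x N _ _ (g3 hA3)⟩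
  · intro hY2 z hz1 hz2
    obtain ⟨d, hd1, hd2, H₄⟩ := H₃ N hN3 Y z hY hY2 hz1 (hz₃ N hN4 z hz2)
    refine ⟨d, hd1, hd2, fun q hq hqN hqp => ?_⟩
    obtain ⟨⟨b, hb⟩, ⟨b', hb'⟩⟩ := H₄ q hq hqN hqp
    exact ⟨⟨b, fun x => conv d b x N _ inferInstance (hb x)⟩, ⟨b', fun x => conv d b' x N _ inferInstance (hb' x)⟩⟩

end Pool.Agent.Results.MP_a78e8f_nt.SquareWeightsNearLevelOne
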